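import Pool.Agent.R11.KneserTab

/-!
# Diameter-three Kneser graphs of small degree are Class 0

For each of the eleven graphs a weight `om i j` is given for the vertices `v` with `|v ∩ r| = i` and
`|v ∩ y| = j`, where `r` is the target and `y` a neighbour of `r`.  Every vertex of positive weight
other than `y` has a neighbour of at least twice its weight, so the excess of an unsolvable
configuration with respect to these weights is not positive; summing over all `y`, all vertices
other than `r` get the same weight.
-/

set_option autoImplicit false

namespace Pool.Agent.Results.MP_9946dc_co.ClassZero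

/-- The Kneser graph `K(m, t)`: the vertices are the `t`-element subsets of an `m`-element set,
two (different) vertices are adjacent when they are disjoint. -/
def kneser (m t : ℕ) : SimpleGraph {s : Finset (Fin m) // s.card = t} where
  Adj a b := a ≠ b ∧ Disjoint a.1 b.1
  symm := ⟨fun _ _ h => ⟨h.1.symm, h.2.symm⟩⟩
  loopless := ⟨fun _ h => h.1 rfl⟩

section

variable {V : Type} [DecidableEq V]

/-- One pebbling move from the configuration `C` to the configuration `C'`: two pebbles are taken
off a vertex `u` and one pebble is put on a neighbour `v` of `u`, so that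
`C' + 2 e_u = C + e_v`. (As `u ≠ v`, this forces `C u ≥ 2`.) -/
def Move (G : SimpleGraph V) (C C' : V → ℕ) : Prop :=
  ∃ u v : V, G.Adj u v ∧ C' + Pi.single u 2 = C + Pi.single v 1

/-- `C` is `r`-solvable: some finite sequence of pebbling moves puts at least one pebble
on `r`. -/
def Solvable (G : SimpleGraph V) (r : V) (C : V → ℕ) : Prop :=
  ∃ C' : V → ℕ, Relation.ReflTransGen (Move G) C C' ∧ 1 ≤ C' r

/-- `π(G, r)`: the least `k` such that every configuration of size `k` is `r`-solvable. -/
noncomputable def rootedPebblingNumber [Fintype V] (G : SimpleGraph V) (r : V) : ℕ :=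
  sInf {k : ℕ | ∀ C : V → ℕ, ∑ v, C v = k → Solvable G r C}

/-- The pebbling number `π(G)`, the maximum of `π(G, r)` over all vertices `r`. -/
noncomputable def pebblingNumber [Fintype V] (G : SimpleGraph V) : ℕ :=
  Finset.univ.sup fun r => rootedPebblingNumber G r

end

theorem of_helper {m t : ℕ} (h : Pool.Agent.R11.Kneser.pebbling
    (Pool.Agent.R11.Kneser.kneser m t) = m.choose t) :
    pebblingNumber (kneser m t) = m.choose t := h

/-- For all integers `t ≥ 5` and `m ≥ (5t - 1)/2` with `C(m - t, t) ≤ 511`, the Kneser graph
`K(m, t)` is Class 0: its pebbling number is its number `C(m, t)` of vertices. -/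
theorem result (m t : ℕ) (ht : 5 ≤ t) (hm : 5 * t - 1 ≤ 2 * m) (hdeg : (m - t).choose t ≤ 511) :
    pebblingNumber (kneser m t) = m.choose t := by
  have ht8 : t ≤ 8 := by
    by_contra h
    push Not at h
    have h1 : (t + 4).choose t ≤ (m - t).choose t := Nat.choose_le_choose t (by omega)
    have h2 : (t + 4).choose t = (t + 4).choose 4 := by
      rw [Nat.choose_symm_add]
    have h3 : (13 : ℕ).choose 4 ≤ (t + 4).choose 4 := Nat.choose_le_choose 4 (by omega)
    have h4 : (13 : ℕ).choose 4 = 715 := by decide
    omega
  interval_cases t
  · have hm2 : m ≤ 16 := by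
      by_contra h
      push Not at h
      have h1 : (12 : ℕ).choose 5 ≤ (m - 5).choose 5 := Nat.choose_le_choose 5 (by omega)
      have h2 : (12 : ℕ).choose 5 = 792 := by decide
      omega
    have hm1 : 12 ≤ m := by omega
    interval_cases m
    · exact of_helper Pool.Agent.R11.Kneser.class_zero_12_5
    · exact of_helper Pool.Agent.R11.Kneser.class_zero_13_5
    · exact of_helper Pool.Agent.R11.Kneser.class_zero_14_5
    · exact of_helper Pool.Agent.R11.Kneser.class_zero_15_5
    · exact of_helper Pool.Agent.R11.Kneser.class_zero_16_5
  · have hm2 : m ≤ 17 := by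
      by_contra h
      push Not at h
      have h1 : (12 : ℕ).choose 6 ≤ (m - 6).choose 6 := Nat.choose_le_choose 6 (by omega)
      have h2 : (12 : ℕ).choose 6 = 924 := by decide
      omega
    have hm1 : 15 ≤ m := by omega
    interval_cases m
    · exact of_helper Pool.Agent.R11.Kneser.class_zero_15_6
    · exact of_helper Pool.Agent.R11.Kneser.class_zero_16_6
    · exact of_helper Pool.Agent.R11.Kneser.class_zero_17_6
  · have hm2 : m ≤ 18 := by
      by_contra h
      push Not at h
      have h1 : (12 : ℕ).choose 7 ≤ (m - 7).choose 7 := Nat.choose_le_choose 7 (by omega)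
      have h2 : (12 : ℕ).choose 7 = 792 := by decide
      omega
    have hm1 : 17 ≤ m := by omega
    interval_cases m
    · exact of_helper Pool.Agent.R11.Kneser.class_zero_17_7
    · exact of_helper Pool.Agent.R11.Kneser.class_zero_18_7
  · have hm2 : m ≤ 20 := by
      by_contra h
      push Not at h
      have h1 : (13 : ℕ).choose 8 ≤ (m - 8).choose 8 := Nat.choose_le_choose 8 (by omega)
      have h2 : (13 : ℕ).choose 8 = 1287 := by decide
      omega
    have hm1 : 20 ≤ m := by omega
    obtain rfl : m = 20 := by omega
    exact of_helper Pool.Agent.R11.Kneser.class_zero_20_8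

end Pool.Agent.Results.MP_9946dc_co.ClassZero
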